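import Pool.Agent.Q39.SP.LLD

/-!
# Dubrovin's conjecture (first part) and blow-ups

`Dubrovin X`: the big quantum cohomology of `X` is semisimple if and only if `X` has a full exceptional
collection, if and only if `X` has no odd cohomology and `h^{p,q}(X) = 0` for `p ≠ q`. It is stable
under blow-ups; it holds for the class generated by the Fano manifolds of dimension at most three, the
projective spaces, the quadrics, the curves and many surfaces under products, projective bundles and
blow-ups, for the Fano manifolds of any dimension which are blow-ups in a point and for the Fano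
fourfolds of Picard number at least three with a prime divisor of Picard number one. (Proof:
`Pool.Agent.Q8.DU`, from the hand-in `LargeLefschetzDefect` of helper8.)
-/

set_option autoImplicit false

universe u

namespace Pool.Agent.Results.MP_78bf89_ag.BlowUpsOfFano

open Pool.Agent.Q200.DB Pool.Agent.Q8.DU Pool.Agent.Q8.DU.FanoData

/-- **Dubrovin's conjecture and blow-ups.** Let `T` be the smooth projective complex varieties with
their big quantum cohomology (`hT`: known facts).

1. `Dubrovin X` holds for all members of the class `Generated`.
2. If it holds for `X` and `Z` then it holds for the blow-up of `X` along `Z`.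
3. It holds for all Fano manifolds, of any dimension, which are blow-ups in a point.
4. It holds for all Fano fourfolds of Picard number at least three which contain a prime divisor of
   Picard number one. -/
theorem result {T : FanoData.{u}} (hT : T.FanoFacts) :
    (∀ X : T.Var, T.Generated X → T.Dubrovin X) ∧
    (∀ (Z X X' : T.Var) (r : ℕ), T.Blow Z X X' r → T.Dubrovin X → T.Dubrovin Z →
      T.Dubrovin X') ∧
    (∀ Z X Y : T.Var, T.Fano X → T.dim Z = 0 → T.Blow Z Y X (T.dim X) → T.Dubrovin X) ∧
    ∀ X : T.Var, T.Fano X → T.dim X = 4 → T.PrimeOne X → 3 ≤ T.rho X → T.Dubrovin X :=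
  ⟨(Pool.Agent.Q39.SP.LLD.joined hT).1, (Pool.Agent.Q39.SP.LLD.joined hT).2.1,
    (Pool.Agent.Q39.SP.LLD.joined hT).2.2.2.2.1, (Pool.Agent.Q39.SP.LLD.joined hT).2.2.2.2.2⟩

end Pool.Agent.Results.MP_78bf89_ag.BlowUpsOfFano
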