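import Pool.Agent.Q200.DB.Main

/-!
# Dubrovin's conjecture (first part) for Fano threefolds and their blow-ups

We prove that a Fano threefold, or a threefold obtained from a Fano threefold by any finite sequence
of blow-ups in points and smooth curves, has semisimple big quantum cohomology if and only if it has a
full exceptional collection, if and only if `b_3 = 0`. The semisimplicity is proved without
computations of Gromov-Witten invariants, by a cancellation argument in the weak factorization.
Moreover the Fano fourfolds with `b_2 > 12` have both.
-/

universe u

namespace Pool.Agent.Results.MP_78bf89_ag.FanoThreefolds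

open Pool.Agent.Q200.DB Pool.Agent.Q200.DB.QHData

/-- **Dubrovin's conjecture for Fano threefolds.** Let `T` be the smooth projective complex varieties
with their quantum cohomology (`hT`: known facts).

1. Let `X` be a Fano threefold or obtained from a Fano threefold by a finite sequence of blow-ups in
   points and smooth curves. Then `X` has semisimple quantum cohomology if and only if it has a full
   exceptional collection, if and only if it has no odd cohomology.
2. Each Fano fourfold with `b_2 > 12` has semisimple quantum cohomology and a full exceptional
   collection. -/
theorem result {T : QHData.{u}} (hT : T.Facts) :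
    (∀ X Y : T.Var, T.dim Y = 3 → T.Fano Y → T.Above Y X →
      (T.Semisimple X ↔ T.FEC X) ∧ (T.Semisimple X ↔ T.odd X = 0)) ∧
    ∀ X : T.Var, T.dim X = 4 → T.Fano X → 12 < T.betti X 2 → T.Semisimple X ∧ T.FEC X :=
  ⟨fun _ _ hY hF h => fano_three hT hY hF h, fun _ hX hF h => fano_four hT hX hF h⟩

end Pool.Agent.Results.MP_78bf89_ag.FanoThreefolds
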