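import Pool.Agent.Q39.SP.LLD

/-!
# Dubrovin's conjecture (first part) for Fano manifolds of Lefschetz defect at least three

`Dubrovin X`: the big quantum cohomology of `X` is semisimple if and only if `X` has a full exceptional
collection, if and only if `X` has no odd cohomology and `h^{p,q}(X) = 0` for `p ≠ q`. It holds for each
Fano manifold of dimension `n` and Lefschetz defect at least three if it holds for all Fano manifolds of
dimension `n - 2`, and hence for all those of dimension at most five. (Proof: `Pool.Agent.Q8.DU`, from
the hand-in `LargeLefschetzDefect` of helper8.)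
-/

set_option autoImplicit false

universe u

namespace Pool.Agent.Results.MP_78bf89_ag.LefschetzDefectThree

open Pool.Agent.Q200.DB Pool.Agent.Q8.DU Pool.Agent.Q8.DU.FanoData

/-- **Dubrovin's conjecture for Fano manifolds of Lefschetz defect at least three.** Let `T` be the
smooth projective complex varieties with their big quantum cohomology (`hT`: known facts).

1. `Dubrovin X` holds for each Fano manifold of dimension `n` and Lefschetz defect at least three, if it
   holds for all Fano manifolds of dimension `n - 2`.
2. It holds for all Fano manifolds of dimension at most five and Lefschetz defect at least three; those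
   of dimension four have semisimple quantum cohomology and a full exceptional collection. -/
theorem result {T : FanoData.{u}} (hT : T.FanoFacts) :
    (∀ X : T.Var, T.Fano X → 3 ≤ T.defect X →
      (∀ W : T.Var, T.Fano W → T.dim W + 2 = T.dim X → T.Dubrovin W) → T.Dubrovin X) ∧
    (∀ X : T.Var, T.Fano X → 3 ≤ T.defect X → T.dim X ≤ 5 →
      T.Dubrovin X ∧ (T.dim X = 4 → T.Semisimple X ∧ T.FEC X)) :=
  ⟨(Pool.Agent.Q39.SP.LLD.joined hT).2.2.1, (Pool.Agent.Q39.SP.LLD.joined hT).2.2.2.1⟩

end Pool.Agent.Results.MP_78bf89_ag.LefschetzDefectThree
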