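import Pool.Agent.Q200.DB.Main

/-!
# Semisimple quantum cohomology and exceptional collections on ruled and rational threefolds

The big quantum cohomology of a smooth projective threefold birational to `S × P^1` is semisimple if
and only if the surface `S` is rational and the threefold has no odd cohomology. For ALL rational
threefolds the semisimplicity is equivalent to `b_3 = 0`, and a full exceptional collection implies it.
The proof is a cancellation argument in the weak factorization, without computations of
Gromov-Witten invariants: the local factors of the quantum cohomology of the threefolds in a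
factorization are determined up to the types `(1, 0)` (a field) and `(2, 2 g)`, `g ≥ 1`, and the
latter are counted by the odd cohomology.
-/

universe u

namespace Pool.Agent.Results.MP_78bf89_ag.RuledThreefolds

open Pool.Agent.Q200.DB Pool.Agent.Q200.DB.QHData

/-- **Ruled and rational threefolds.** Let `T` be the smooth projective complex varieties with their
quantum cohomology (`hT`: known facts).

1. Let `X` be a threefold birational to `S × P^1`, `S` a smooth projective surface. The big quantum
   cohomology of `X` is semisimple if and only if `S` is rational and `X` has no odd cohomology. If `X`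
   has a full exceptional collection then it is semisimple, or `S` is a non-rational surface with
   `p_g = b_1 = 0`.
2. Let `X` be a rational threefold. Each local factor of its quantum cohomology has the superdimension
   `(1, 0)` or `(2, 2 g)`, `g ≥ 1`. It is semisimple if and only if `b_3(X) = 0`, in particular if `X`
   has a full exceptional collection. -/
theorem result {T : QHData.{u}} (hT : T.Facts) :
    (∀ X S : T.Var, T.dim S = 2 → T.Bir X (T.prod S (T.P 1)) →
      (T.Semisimple X ↔ T.Rational S ∧ T.odd X = 0) ∧
      (T.FEC X → T.Semisimple X ∨ ¬ T.Rational S ∧ T.pg S = 0 ∧ T.betti S 1 = 0)) ∧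
    ∀ X : T.Var, T.dim X = 3 → T.Rational X →
      (∀ x ∈ T.types X, x = (1, 0) ∨ ∃ g, 1 ≤ g ∧ x = (2, 2 * g)) ∧
      (T.Semisimple X ↔ T.odd X = 0) ∧ (T.FEC X → T.Semisimple X) :=
  ⟨fun _ _ hS h => ⟨ruled hT hS h, ruled_fec hT hS h⟩,
    fun X hX h => ⟨(rational_three hT hX h).1, (rational_three hT hX h).2,
      fun hf => (rational_three hT hX h).2.2 (hT.fec_odd X hf)⟩⟩

end Pool.Agent.Results.MP_78bf89_ag.RuledThreefolds
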